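import Pool.Agent.helper55.NM.Spec

set_option autoImplicit false

namespace Pool.Agent.helper1.NM

open Pool.Agent.NM Finset Nat

open Classical in
theorem GG3_fiber (hLYB : LYB_stmt) (p : ℕ) (S : Finset (Fin p)) (H : Finset (Finset (Fin p)))
    (h1 : ∀ I ∈ H, ¬ I ⊆ S)
    (h2 : ∀ I₁ ∈ H, ∀ I₂ ∈ H, I₁ ∩ S = I₂ ∩ S → I₁ ⊆ I₂ → I₁ = I₂)
    (ρ : ℝ) (hρ1 : 1 / 3 ≤ ρ) (hρ2 : ρ ≤ 1 / 2) (hb : 3 ≤ (univ \ S).card)
    (T : Finset (Fin p)) (hT : T ⊆ S) :
    ∑ I ∈ H.filter (fun I => I ∩ S = T), ρ ^ I.card * (1 - ρ) ^ (p - I.card) ≤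
      ρ ^ T.card * (1 - ρ) ^ (S.card - T.card) * (3 * ρ * (1 - ρ) ^ 2) := by
  have hcardα : Fintype.card {e : Fin p // e ∉ S} = (univ \ S).card := by
    rw [Fintype.card_subtype]
    congr 1
    ext e
    simp
  have hSc : (univ \ S).card = p - S.card := by
    rw [Finset.card_sdiff_of_subset (Finset.subset_univ S), Finset.card_univ, Fintype.card_fin]
  have hSp : S.card ≤ p := by
    have := card_le_univ S
    rwa [Fintype.card_fin] at this
  have hinj : ∀ I₁ ∈ H.filter (fun I => I ∩ S = T), ∀ I₂ ∈ H.filter (fun I => I ∩ S = T),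
      I₁.subtype (fun e => e ∉ S) ⊆ I₂.subtype (fun e => e ∉ S) → I₁ = I₂ := by
    intro I₁ hI₁ I₂ hI₂ hs
    rw [mem_filter] at hI₁ hI₂
    refine h2 I₁ hI₁.1 I₂ hI₂.1 (hI₁.2.trans hI₂.2.symm) ?_
    intro e he
    by_cases heS : e ∈ S
    · have : e ∈ I₁ ∩ S := mem_inter.2 ⟨he, heS⟩
      rw [hI₁.2, ← hI₂.2] at this
      exact (mem_inter.1 this).1
    · have h3 : (⟨e, heS⟩ : {e : Fin p // e ∉ S}) ∈ I₁.subtype (fun e => e ∉ S) := by
        rw [mem_subtype]; exact he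
      have h4 := hs h3
      rw [mem_subtype] at h4
      exact h4
  have hL := hLYB {e : Fin p // e ∉ S}
    ((H.filter (fun I => I ∩ S = T)).image fun I => I.subtype (fun e => e ∉ S)) ρ (by
      intro A hA B hB hne hAB
      rw [mem_coe, mem_image] at hA hB
      obtain ⟨I₁, hI₁, rfl⟩ := hA
      obtain ⟨I₂, hI₂, rfl⟩ := hB
      exact hne (by rw [hinj I₁ hI₁ I₂ hI₂ hAB])) (by
      intro A hA
      rw [mem_image] at hA
      obtain ⟨I, hI, rfl⟩ := hA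
      have h5 := h1 I (mem_filter.1 hI).1
      rw [not_subset] at h5
      obtain ⟨e, he, heS⟩ := h5
      exact ⟨⟨e, heS⟩, by rw [mem_subtype]; exact he⟩) (by rw [hcardα]; exact hb) hρ1 hρ2
  rw [sum_image (by
    intro I₁ hI₁ I₂ hI₂ he
    exact hinj I₁ (mem_coe.1 hI₁) I₂ (mem_coe.1 hI₂) (by
      have he' : I₁.subtype (fun e => e ∉ S) = I₂.subtype (fun e => e ∉ S) := he
      rw [he']))] at hL
  have hc : 0 ≤ ρ ^ T.card * (1 - ρ) ^ (S.card - T.card) :=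
    mul_nonneg (pow_nonneg (by linarith) _) (pow_nonneg (by linarith) _)
  have hmul := mul_le_mul_of_nonneg_left hL hc
  rw [mul_sum] at hmul
  refine le_trans (le_of_eq ?_) hmul
  refine sum_congr rfl fun I hI => ?_
  have hI' := mem_filter.1 hI
  have hcA : (I.subtype (fun e => e ∉ S)).card = (I \ S).card := by
    rw [card_subtype]
    congr 1
    ext e
    simp
  have hcI : I.card = T.card + (I \ S).card := by
    have h6 := card_inter_add_card_sdiff I S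
    rw [hI'.2] at h6
    omega
  have hle : (I \ S).card ≤ p - S.card := by
    rw [← hSc]
    exact card_le_card (sdiff_subset_sdiff (subset_univ I) (Subset.refl S))
  have hTS : T.card ≤ S.card := card_le_card hT
  have e1 : p - I.card = (S.card - T.card) + (Fintype.card {e : Fin p // e ∉ S} - (I \ S).card) := by
    rw [hcardα, hSc]
    omega
  rw [hcA, e1, hcI, pow_add, pow_add]
  ring

theorem GG3 (hLYB : LYB_stmt) : GG3_stmt := by
  classical
  intro p S H d ε ρ R hH hε hρ1 hρ2 hR0 hR1 hb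
  have hρ0 : 0 ≤ ρ := by linarith
  have hρ3 : 0 ≤ 1 - ρ := by linarith
  have hstep1 : ∑ I ∈ H, ρ ^ I.card * (1 - ρ) ^ (p - I.card) * R ^ d I ≤
      ∑ I ∈ H, ρ ^ I.card * (1 - ρ) ^ (p - I.card) := by
    refine sum_le_sum fun I _ => ?_
    exact mul_le_of_le_one_right (mul_nonneg (pow_nonneg hρ0 _) (pow_nonneg hρ3 _))
      (pow_le_one₀ hR0 (by linarith))
  refine hstep1.trans ?_
  have hfib : ∑ I ∈ H, ρ ^ I.card * (1 - ρ) ^ (p - I.card) =
      ∑ T ∈ S.powerset, ∑ I ∈ H.filter (fun I => I ∩ S = T), ρ ^ I.card * (1 - ρ) ^ (p - I.card) :=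
    (sum_fiberwise_of_maps_to (fun I _ => mem_powerset.2 inter_subset_right) _).symm
  rw [hfib]
  have hsum1 : ∑ T ∈ S.powerset, ρ ^ T.card * (1 - ρ) ^ (S.card - T.card) = 1 := by
    rw [sum_pow_mul_eq_add_pow]
    have : ρ + (1 - ρ) = 1 := by ring
    rw [this, one_pow]
  calc ∑ T ∈ S.powerset, ∑ I ∈ H.filter (fun I => I ∩ S = T), ρ ^ I.card * (1 - ρ) ^ (p - I.card)
      ≤ ∑ T ∈ S.powerset, ρ ^ T.card * (1 - ρ) ^ (S.card - T.card) * (3 * ρ * (1 - ρ) ^ 2) :=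
        sum_le_sum fun T hT => GG3_fiber hLYB p S H hH.1 hH.2.1 ρ (by linarith) (by linarith) hb T
          (mem_powerset.1 hT)
    _ = 3 * ρ * (1 - ρ) ^ 2 := by rw [← sum_mul, hsum1, one_mul]
    _ ≤ (1 - ε) * (2 * ρ * (1 - ρ)) := by
        have h7 : 0 ≤ ρ * (1 - ρ) := mul_nonneg hρ0 hρ3
        have h8 : 3 * (1 - ρ) ≤ 2 * (1 - ε) := by linarith
        have h9 := mul_le_mul_of_nonneg_left h8 h7
        calc 3 * ρ * (1 - ρ) ^ 2 = ρ * (1 - ρ) * (3 * (1 - ρ)) := by ring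
          _ ≤ ρ * (1 - ρ) * (2 * (1 - ε)) := h9
          _ = (1 - ε) * (2 * ρ * (1 - ρ)) := by ring

end Pool.Agent.helper1.NM
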